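import Pool.Agent.H24.AG.Targets

/-!
# Row VIN: small projection to `Z_j` implies small averages of the cube integrals
-/

set_option autoImplicit false

open MeasureTheory ProbabilityTheory Filter Topology Finset
open scoped Nat

namespace Pool.Agent.H29.AG

open Pool.Agent.H24.AG
open Pool.Agent.H67.AG (SA InvZ tow nxt triv tow_zero tow_succ T_ST T_EC T_TW)

section inv

variable {X : Type} [mX : MeasurableSpace X]

theorem zp_emb (T : X ≃ᵐ X) (n : ℤ) : MeasurableEmbedding (zp T n) := by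
  refine MeasurableEmbedding.of_measurable_inverse (g := zp T (-n)) (measurable_zp T n) ?_
    (measurable_zp T (-n)) ?_
  · have : Set.range (zp T n) = Set.univ := by
      rw [Set.range_eq_univ]
      intro x
      exact ⟨zp T (-n) x, zp_inj T n x⟩
    rw [this]
    exact MeasurableSet.univ
  · intro x
    have := zp_inj T (-n) x
    rwa [neg_neg] at this

theorem zp_meas_Z (T : X ≃ᵐ X) (Z : SA X) (hZ : InvZ T Z) (n : ℤ) :
    Measurable[Z.1, Z.1] (zp T n) := by
  have h1 : Measurable[Z.1, Z.1] (T : X → X) := fun A hA => (hZ A hA).1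
  have h2 : Measurable[Z.1, Z.1] (T.symm : X → X) := fun A hA => (hZ A hA).2
  rcases Int.eq_nat_or_neg n with ⟨m, rfl | rfl⟩
  · have h : zp T (m : ℤ) = T^[m] := funext fun x => zp_natCast T m x
    rw [h]; exact Measurable.iterate h1 m
  · have h : zp T (-(m : ℤ)) = T.symm^[m] := funext fun x => zp_neg_natCast T m x
    rw [h]; exact Measurable.iterate h2 m

/-- The conditional expectation with respect to an invariant algebra commutes with the
translations. -/
theorem ce_zp (μ : Measure X) [IsProbabilityMeasure μ] (T : X ≃ᵐ X) (Z : SA X)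
    (hT : MeasurePreserving T μ μ) (hZ : InvZ T Z) (f : X → ℝ) (hf : Measurable f)
    (hf1 : ∀ x, |f x| ≤ 1) (n : ℤ) :
    (fun x => (μ[f | Z.1]) (zp T n x)) =ᵐ[μ] μ[fun x => f (zp T n x) | Z.1] := by
  have hfi : Integrable f μ := Integrable.of_bound hf.aestronglyMeasurable 1
    (Eventually.of_forall fun ω => by simpa using hf1 ω)
  have hfi' : Integrable (fun x => f (zp T n x)) μ :=
    Integrable.of_bound (hf.comp (measurable_zp T n)).aestronglyMeasurable 1
      (Eventually.of_forall fun ω => by simpa using hf1 _)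
  have hGi : Integrable (fun x => (μ[f | Z.1]) (zp T n x)) μ :=
    (mp_zp hT n).integrable_comp_of_integrable integrable_condExp
  refine ae_eq_condExp_of_forall_setIntegral_eq Z.2 hfi' (fun s _ _ => hGi.integrableOn) ?_ ?_
  · intro s hs _
    have hs' : MeasurableSet[Z.1] (zp T (-n) ⁻¹' s) := zp_meas_Z T Z hZ (-n) hs
    have e : s = zp T n ⁻¹' (zp T (-n) ⁻¹' s) := by
      ext x
      simp only [Set.mem_preimage]
      have := zp_inj T (-n) x
      rw [neg_neg] at this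
      rw [this]
    rw [e]
    rw [(mp_zp hT n).setIntegral_preimage_emb (zp_emb T n) (fun y => (μ[f | Z.1]) y),
      (mp_zp hT n).setIntegral_preimage_emb (zp_emb T n) f]
    exact setIntegral_condExp Z.2 hfi hs'
  · exact (stronglyMeasurable_condExp.comp_measurable (zp_meas_Z T Z hZ n)).aestronglyMeasurable

/-- The norm of the projection of a translate. -/
theorem int_ce_zp (μ : Measure X) [IsProbabilityMeasure μ] (T : X ≃ᵐ X) (Z : SA X)
    (hT : MeasurePreserving T μ μ) (hZ : InvZ T Z) (f : X → ℝ) (hf : Measurable f)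
    (hf1 : ∀ x, |f x| ≤ 1) (n : ℤ) :
    ∫ x, ((μ[fun x => f (zp T n x) | Z.1]) x) ^ 2 ∂μ = ∫ x, ((μ[f | Z.1]) x) ^ 2 ∂μ := by
  have h1 : ∫ x, ((μ[fun x => f (zp T n x) | Z.1]) x) ^ 2 ∂μ =
      ∫ x, ((μ[f | Z.1]) (zp T n x)) ^ 2 ∂μ := by
    refine integral_congr_ae ?_
    filter_upwards [ce_zp μ T Z hT hZ f hf hf1 n] with x hx
    rw [← hx]
  rw [h1]
  exact (mp_zp hT n).integral_comp (zp_emb T n) (fun y => ((μ[f | Z.1]) y) ^ 2)

end inv

/-- The number of pairs with a given difference. -/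
theorem card_diff (H : ℕ) (σ τ : ℤ) (hσ : σ = 1 ∨ σ = -1) :
    ((range H ×ˢ range H).filter (fun p : ℕ × ℕ => σ * ((p.2 : ℤ) - p.1) = τ)).card =
      H - τ.natAbs := by
  rw [← card_range (H - τ.natAbs)]
  refine Finset.card_nbij' (fun p => min p.1 p.2)
    (fun i => (i + (-(σ * τ)).toNat, i + (σ * τ).toNat)) ?_ ?_ ?_ ?_
  · rintro ⟨x, y⟩ h
    simp only [coe_filter, mem_product, mem_range, Set.mem_ofPred_eq, coe_range, Set.mem_Iio] at h ⊢
    rcases hσ with rfl | rfl <;> omega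
  · intro i h
    simp only [coe_filter, mem_product, mem_range, Set.mem_ofPred_eq, coe_range, Set.mem_Iio] at h ⊢
    rcases hσ with rfl | rfl <;> omega
  · rintro ⟨x, y⟩ h
    simp only [coe_filter, mem_product, mem_range, Set.mem_ofPred_eq] at h
    simp only [Prod.mk.injEq]
    rcases hσ with rfl | rfl <;> omega
  · intro i h
    simp only [coe_range, Set.mem_Iio] at h
    simp only
    rcases hσ with rfl | rfl <;> omega

theorem fj_nonneg (H : ℕ) (t : ℤ) : 0 ≤ fj H t := by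
  unfold fj
  exact div_nonneg (le_max_left _ _) (Nat.cast_nonneg _)

theorem fj_eq (H : ℕ) (hH : 0 < H) (t : ℤ) (ht : t ∈ Finset.Icc (-(H : ℤ)) H) :
    ((H - t.natAbs : ℕ) : ℝ) = (H : ℝ) ^ 2 * fj H t := by
  rw [Finset.mem_Icc] at ht
  have h1 : t.natAbs ≤ H := by omega
  have hH' : (0 : ℝ) < H := by exact_mod_cast hH
  have h2 : |(t : ℝ)| = (t.natAbs : ℝ) := by
    rw [Nat.cast_natAbs, Int.cast_abs]
  have h3 : (t.natAbs : ℝ) ≤ H := by exact_mod_cast h1
  rw [Nat.cast_sub h1, fj, h2, max_eq_right]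
  · field_simp
  · have : (t.natAbs : ℝ) / H ≤ 1 := by rw [div_le_one hH']; exact h3
    linarith

/-- The double sum as a Fejer sum. -/
theorem dsum (H : ℕ) (hH : 0 < H) (σ : ℤ) (hσ : σ = 1 ∨ σ = -1) (r : ℤ → ℝ) :
    ∑ s ∈ range H, ∑ t ∈ range H, r (σ * ((t : ℤ) - s)) =
      (H : ℝ) ^ 2 * ∑ τ ∈ Finset.Icc (-(H : ℤ)) H, fj H τ * r τ := by
  rw [← Finset.sum_product' (f := fun s t : ℕ => r (σ * ((t : ℤ) - s)))]
  have hmaps : ∀ p ∈ range H ×ˢ range H, σ * ((p.2 : ℤ) - p.1) ∈ Finset.Icc (-(H : ℤ)) H := by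
    rintro ⟨x, y⟩ h
    simp only [mem_product, mem_range] at h
    rw [Finset.mem_Icc]
    rcases hσ with rfl | rfl <;> constructor <;> omega
  rw [← Finset.sum_fiberwise_of_maps_to hmaps, Finset.mul_sum]
  refine Finset.sum_congr rfl fun τ hτ => ?_
  have h1 : ∑ p ∈ (range H ×ˢ range H).filter (fun p : ℕ × ℕ => σ * ((p.2 : ℤ) - p.1) = τ),
      r (σ * ((p.2 : ℤ) - p.1)) =
      ∑ p ∈ (range H ×ˢ range H).filter (fun p : ℕ × ℕ => σ * ((p.2 : ℤ) - p.1) = τ), r τ := by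
    refine Finset.sum_congr rfl fun p hp => ?_
    rw [(mem_filter.1 hp).2]
  rw [h1, Finset.sum_const, card_diff H σ τ hσ, nsmul_eq_mul, fj_eq H hH τ hτ]
  ring

theorem sum_fj (H : ℕ) (hH : 0 < H) : ∑ τ ∈ Finset.Icc (-(H : ℤ)) H, fj H τ = 1 := by
  have h := dsum H hH 1 (Or.inl rfl) (fun _ => 1)
  simp only [Finset.sum_const, card_range, nsmul_eq_mul, mul_one] at h
  have hH' : (0 : ℝ) < H := by exact_mod_cast hH
  have h2 : (H : ℝ) ^ 2 ≠ 0 := by positivity
  have h3 : (H : ℝ) ^ 2 * ∑ τ ∈ Finset.Icc (-(H : ℤ)) H, fj H τ = (H : ℝ) ^ 2 * 1 := by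
    rw [← h]; ring
  exact mul_left_cancel₀ h2 h3

theorem FJ_le_one (j : ℕ) (H : Fin j → ℕ) (hH : ∀ i, 0 < H i) (v : (Fin j → ℤ) → ℝ)
    (hv : ∀ t, v t ≤ 1) : FJ j H v ≤ 1 := by
  unfold FJ
  have h1 : ∑ t ∈ Fintype.piFinset (fun i => Finset.Icc (-(H i : ℤ)) (H i)),
      (∏ i, fj (H i) (t i)) * v t ≤
      ∑ t ∈ Fintype.piFinset (fun i => Finset.Icc (-(H i : ℤ)) (H i)), ∏ i, fj (H i) (t i) := by
    refine Finset.sum_le_sum fun t _ => ?_
    have : 0 ≤ ∏ i, fj (H i) (t i) := Finset.prod_nonneg fun i _ => fj_nonneg _ _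
    nlinarith [hv t]
  refine h1.trans (le_of_eq ?_)
  rw [← Finset.prod_univ_sum]
  exact Finset.prod_eq_one fun i _ => sum_fj (H i) (hH i)

theorem FJ_succ (j H : ℕ) (H' : Fin j → ℕ) (v : (Fin (j + 1) → ℤ) → ℝ) :
    FJ (j + 1) (Fin.cons H H') v =
      ∑ τ ∈ Finset.Icc (-(H : ℤ)) H, fj H τ * FJ j H' (fun t => v (Fin.cons τ t)) := by
  unfold FJ
  simp_rw [Finset.mul_sum]
  rw [← Finset.sum_product' (f := fun (τ : ℤ) (t : Fin j → ℤ) =>
    fj H τ * ((∏ i, fj (H' i) (t i)) * v (Fin.cons τ t)))]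
  refine Finset.sum_nbij' (fun t => (t 0, Fin.tail t)) (fun p => Fin.cons p.1 p.2) ?_ ?_ ?_ ?_ ?_
  · intro t ht
    rw [Fintype.mem_piFinset] at ht
    rw [mem_product, Fintype.mem_piFinset]
    refine ⟨?_, fun i => ?_⟩
    · have := ht 0
      simpa using this
    · have := ht i.succ
      simpa [Fin.tail] using this
  · rintro ⟨τ, t⟩ h
    rw [mem_product, Fintype.mem_piFinset] at h
    rw [Fintype.mem_piFinset]
    intro i
    refine Fin.cases ?_ (fun i => ?_) i
    · simpa using h.1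
    · simpa using h.2 i
  · intro t _
    simp only
    exact Fin.cons_self_tail t
  · rintro ⟨τ, t⟩ _
    simp only [Fin.cons_zero, Fin.tail_cons]
  · intro t _
    simp only
    rw [Fin.prod_univ_succ, Fin.cons_self_tail]
    simp only [Fin.cons_zero, Fin.cons_succ, Fin.tail]
    ring

/-- Row VIN. -/
theorem pf_VIN (hst : T_ST) (_ : T_EC) (hj3 : T_TW) (hwn : T_VWN) (hpd : T_VPD) : T_VIN := by
  intro X _ _ μ _ T herg j
  induction j with
  | zero =>
    intro g ε _ hε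
    refine ⟨ε, hε, fun F _ _ h => ⟨Fin.elim0, fun i => i.elim0, ?_⟩⟩
    rw [tow_zero] at h
    have hb : μ[F | (triv X).1] = fun _ => ∫ x, F x ∂μ := by
      exact condExp_bot F
    rw [hb] at h
    simp only [integral_const, probReal_univ, smul_eq_mul, one_mul] at h
    unfold FJ
    have h1 : (Fintype.piFinset (fun i : Fin 0 => Finset.Icc (-((Fin.elim0 i : ℕ) : ℤ))
        (Fin.elim0 i : ℕ))) = {Fin.elim0} := by
      ext t
      simp only [Fintype.mem_piFinset, mem_singleton]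
      constructor
      · intro _
        exact Subsingleton.elim _ _
      · intro _ i
        exact i.elim0
    rw [h1, Finset.sum_singleton]
    simp only [vv_zero, Finset.univ_eq_empty, Finset.prod_empty, one_mul]
    exact h
  | succ j ih =>
    intro g ε hg hε
    obtain ⟨δ', hδ', hih⟩ := ih (Fin.tail g) (ε / 2) (fun i => hg i.succ) (by linarith)
    refine ⟨(ε * δ' / 4) ^ 2, by positivity, fun F hF hF1 hFδ => ?_⟩
    rw [tow_succ] at hFδ
    have hη : (0 : ℝ) < ε * δ' / 4 := by positivity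
    have hZ := hj3 X μ T herg j
    set Z := tow μ T j with hZdef
    have hb : 0 < (g 0).natAbs := Int.natAbs_pos.2 (hg 0)
    obtain ⟨H₀, hH₀⟩ := hst X μ T Z (g 0).natAbs F (ε * δ' / 4) herg hZ hb hF hF1 hη
    set H : ℕ := max H₀ 1 with hHdef
    have hH : 0 < H := lt_of_lt_of_le one_pos (le_max_right _ _)
    have hHR : (0 : ℝ) < H := by exact_mod_cast hH
    have hst' := hH₀ H (le_max_left _ _)
    -- the functions
    set Fτ : ℤ → X → ℝ := fun τ x => F x * F (zp T (g 0 * τ) x) with hFτ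
    have hFτm : ∀ τ, Measurable (Fτ τ) := fun τ => hF.mul (hF.comp (measurable_zp T _))
    have hFτ1 : ∀ τ x, |Fτ τ x| ≤ 1 := fun τ x => by
      simp only [hFτ, abs_mul]
      exact mul_le_one₀ (hF1 _) (abs_nonneg _) (hF1 _)
    set r : ℤ → ℝ := fun τ => ∫ x, ((μ[Fτ τ | Z.1]) x) ^ 2 ∂μ with hr
    have hr0 : ∀ τ, 0 ≤ r τ := fun τ => integral_nonneg fun x => sq_nonneg _
    obtain ⟨σ, hσ, hgσ⟩ : ∃ σ : ℤ, (σ = 1 ∨ σ = -1) ∧ ((g 0).natAbs : ℤ) = g 0 * σ := by
      rcases le_or_gt 0 (g 0) with h | h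
      · exact ⟨1, Or.inl rfl, by omega⟩
      · exact ⟨-1, Or.inr rfl, by omega⟩
    have hterm : ∀ s t : ℕ,
        ∫ x, ((μ[fun x' => F (T^[(g 0).natAbs * s] x') * F (T^[(g 0).natAbs * t] x') | Z.1]) x) ^ 2
          ∂μ = r (σ * ((t : ℤ) - s)) := by
      intro s t
      have e : (fun x' => F (T^[(g 0).natAbs * s] x') * F (T^[(g 0).natAbs * t] x')) =
          fun x' => Fτ (σ * ((t : ℤ) - s)) (zp T (((g 0).natAbs * s : ℕ) : ℤ) x') := by
        funext x'
        simp only [hFτ]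
        rw [← zp_natCast, ← zp_natCast, ← zp_add]
        have e2 : (((g 0).natAbs * t : ℕ) : ℤ) =
            g 0 * (σ * ((t : ℤ) - s)) + (((g 0).natAbs * s : ℕ) : ℤ) := by
          push_cast
          rw [← Int.natCast_natAbs, hgσ]
          ring
        rw [e2]
      rw [e]
      exact int_ce_zp μ T Z herg.toMeasurePreserving hZ _ (hFτm _) (hFτ1 _) _
    have hsum : ∑ τ ∈ Finset.Icc (-(H : ℤ)) H, fj H τ * r τ ≤ 2 * (ε * δ' / 4) := by
      have h1 : ∑ s ∈ range H, ∑ t ∈ range H,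
          ∫ x, ((μ[fun x' => F (T^[(g 0).natAbs * s] x') * F (T^[(g 0).natAbs * t] x') | Z.1]) x) ^ 2
          ∂μ = (H : ℝ) ^ 2 * ∑ τ ∈ Finset.Icc (-(H : ℤ)) H, fj H τ * r τ := by
        rw [← dsum H hH σ hσ r]
        exact Finset.sum_congr rfl fun s _ => Finset.sum_congr rfl fun t _ => hterm s t
      rw [h1] at hst'
      have h2 := le_of_mul_le_mul_left hst' (by positivity)
      have h3 : √(∫ x, ((μ[F | (nxt μ T Z).1]) x) ^ 2 ∂μ) ≤ ε * δ' / 4 := by
        rw [← Real.sqrt_sq hη.le]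
        exact Real.sqrt_le_sqrt hFδ
      linarith
    -- the windows
    have hex : ∀ τ : ℤ, ∃ Hτ : Fin j → ℕ, (∀ i, 0 < Hτ i) ∧ (r τ ≤ δ' →
        FJ j Hτ (fun t => (vv μ T j (Fin.tail g) (Fτ τ) t) ^ 2) ≤ ε / 2) := by
      intro τ
      by_cases h : r τ ≤ δ'
      · obtain ⟨Hτ, h1, h2⟩ := hih (Fτ τ) (hFτm τ) (hFτ1 τ) h
        exact ⟨Hτ, h1, fun _ => h2⟩
      · exact ⟨fun _ => 1, fun _ => one_pos, fun h' => absurd h' h⟩
    choose Hτ hHτ0 hHτ using hex
    set H' : Fin j → ℕ := fun i => ∏ τ ∈ Finset.Icc (-(H : ℤ)) H, Hτ τ i with hH'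
    have hH'0 : ∀ i, 0 < H' i := fun i => Finset.prod_pos fun τ _ => hHτ0 τ i
    have hvpd := fun τ : ℤ => hpd X μ T j (Fin.tail g) (Fτ τ) herg.toMeasurePreserving (hFτm τ)
      (hFτ1 τ)
    have hgood : ∀ τ ∈ Finset.Icc (-(H : ℤ)) H, r τ ≤ δ' →
        FJ j H' (fun t => (vv μ T j (Fin.tail g) (Fτ τ) t) ^ 2) ≤ ε / 2 := by
      intro τ hτ hrτ
      have h1 := (hwn j (fun t => (vv μ T j (Fin.tail g) (Fτ τ) t) ^ 2) (hvpd τ).1
        (fun t => by rw [abs_of_nonneg (sq_nonneg _)]; exact (hvpd τ).2 t) (Hτ τ) (hHτ0 τ)).1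
        (fun i => ∏ τ' ∈ (Finset.Icc (-(H : ℤ)) H).erase τ, Hτ τ' i)
        (fun i => Finset.prod_pos fun τ' _ => hHτ0 τ' i)
      have h2 : (fun i => Hτ τ i * ∏ τ' ∈ (Finset.Icc (-(H : ℤ)) H).erase τ, Hτ τ' i) = H' := by
        funext i
        exact Finset.mul_prod_erase _ (fun τ' => Hτ τ' i) hτ
      rw [h2] at h1
      exact h1.trans (hHτ τ hrτ)
    have hall : ∀ τ, FJ j H' (fun t => (vv μ T j (Fin.tail g) (Fτ τ) t) ^ 2) ≤ 1 := fun τ =>
      FJ_le_one j H' hH'0 _ (hvpd τ).2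
    refine ⟨Fin.cons H H', ?_, ?_⟩
    · intro i
      refine Fin.cases ?_ (fun i => ?_) i
      · simpa using hH
      · simpa using hH'0 i
    · rw [FJ_succ]
      have hv : ∀ (τ : ℤ) (t : Fin j → ℤ), vv μ T (j + 1) g F (Fin.cons τ t) =
          vv μ T j (Fin.tail g) (Fτ τ) t := by
        intro τ t
        rw [vv_succ, Fin.cons_zero, Fin.tail_cons]
      simp_rw [hv]
      have hpt : ∀ τ ∈ Finset.Icc (-(H : ℤ)) H,
          fj H τ * FJ j H' (fun t => (vv μ T j (Fin.tail g) (Fτ τ) t) ^ 2) ≤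
          fj H τ * (ε / 2) + (fj H τ * r τ) / δ' := by
        intro τ hτ
        have h0 := fj_nonneg H τ
        by_cases h : r τ ≤ δ'
        · have h1 := mul_le_mul_of_nonneg_left (hgood τ hτ h) h0
          have h2 : 0 ≤ (fj H τ * r τ) / δ' := div_nonneg (mul_nonneg h0 (hr0 τ)) hδ'.le
          linarith
        · have h1 := mul_le_mul_of_nonneg_left (hall τ) h0
          have h2 : fj H τ * 1 ≤ (fj H τ * r τ) / δ' := by
            rw [mul_div_assoc]
            refine mul_le_mul_of_nonneg_left ?_ h0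
            rw [le_div_iff₀ hδ', one_mul]
            exact (not_le.1 h).le
          have h3 : 0 ≤ fj H τ * (ε / 2) := mul_nonneg h0 (by linarith)
          linarith
      refine (Finset.sum_le_sum hpt).trans ?_
      rw [Finset.sum_add_distrib, ← Finset.sum_mul, sum_fj H hH, ← Finset.sum_div]
      have h4 : (∑ τ ∈ Finset.Icc (-(H : ℤ)) H, fj H τ * r τ) / δ' ≤ ε / 2 := by
        rw [div_le_iff₀ hδ']
        linarith
      linarith

end Pool.Agent.H29.AG
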