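import Pool.Agent.H24.AG.Targets

/-!
# Row VRA: a rational frequency and the classes `1 + W u`
-/

set_option autoImplicit false

open Finset
open scoped Nat

namespace Pool.Agent.H29.AG

open Pool.Agent.H24.AG

theorem ee_add (x y : ℝ) : ee (x + y) = ee x * ee y := by
  unfold ee
  rw [← Complex.exp_add]
  congr 1
  push_cast
  ring

theorem norm_ee (x : ℝ) : ‖ee x‖ = 1 := by
  unfold ee
  have h : (2 * Real.pi * Complex.I * (x : ℂ)) = ((2 * Real.pi * x : ℝ) : ℂ) * Complex.I := by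
    push_cast; ring
  rw [h, Complex.norm_exp_ofReal_mul_I]

theorem ee_eq_one (x : ℝ) : ee x = 1 ↔ ∃ n : ℤ, x = n := by
  unfold ee
  rw [Complex.exp_eq_one_iff]
  constructor
  · rintro ⟨n, hn⟩
    refine ⟨n, ?_⟩
    have h2 : (2 * Real.pi * Complex.I : ℂ) ≠ 0 := Complex.two_pi_I_ne_zero
    have h3 : (x : ℂ) = (n : ℂ) := by
      apply mul_left_cancel₀ h2
      rw [hn]; ring
    exact_mod_cast h3
  · rintro ⟨n, rfl⟩
    exact ⟨n, by push_cast; ring⟩

theorem ee_mul_nat (x : ℝ) (i : ℕ) : ee (x * i) = ee x ^ i := by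
  unfold ee
  rw [← Complex.exp_nat_mul]
  congr 1
  push_cast
  ring

/-- The sum over the classes modulo a prime which does not divide the numerator. -/
theorem sum_ee_zero {l : ℕ} {a : ℤ} (hl : l.Prime) (hla : ¬ (l : ℤ) ∣ a) :
    ∑ i ∈ range l, ee ((a : ℝ) / l * i) = 0 := by
  have hl0 : (l : ℝ) ≠ 0 := by exact_mod_cast hl.ne_zero
  simp_rw [ee_mul_nat]
  have hne : ee ((a : ℝ) / l) ≠ 1 := by
    intro h
    obtain ⟨n, hn⟩ := (ee_eq_one _).1 h
    apply hla
    refine ⟨n, ?_⟩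
    rw [div_eq_iff hl0] at hn
    have : (a : ℝ) = ((l : ℤ) * n : ℤ) := by push_cast; rw [hn]; ring
    exact_mod_cast this
  have hpow : ee ((a : ℝ) / l) ^ l = 1 := by
    rw [← ee_mul_nat, ee_eq_one]
    exact ⟨a, by field_simp⟩
  have := geom_sum_eq hne l
  rw [this, hpow, sub_self, zero_div]

theorem sum_range_split {M : Type} [AddCommMonoid M] (s l : ℕ) (hs : 0 < s) (f : ℕ → M) :
    ∑ u ∈ range (s * l), f u = ∑ u₀ ∈ range s, ∑ i ∈ range l, f (u₀ + i * s) := by
  rw [← Finset.sum_product']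
  symm
  refine Finset.sum_nbij' (fun p => p.1 + p.2 * s) (fun u => (u % s, u / s)) ?_ ?_ ?_ ?_ ?_
  · rintro ⟨x, y⟩ h
    simp only [mem_product, mem_range] at h ⊢
    calc x + y * s < s + y * s := by omega
      _ = s * (y + 1) := by ring
      _ ≤ s * l := Nat.mul_le_mul_left _ h.2
  · intro u h
    simp only [mem_product, mem_range] at h ⊢
    exact ⟨Nat.mod_lt _ hs, Nat.div_lt_of_lt_mul h⟩
  · rintro ⟨x, y⟩ h
    simp only [mem_product, mem_range] at h
    have h1 : (x + y * s) % s = x := by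
      rw [Nat.add_mul_mod_self_right, Nat.mod_eq_of_lt h.1]
    have h2 : (x + y * s) / s = y := by
      rw [Nat.add_mul_div_right _ _ hs, Nat.div_eq_of_lt h.1, zero_add]
    simp only [h1, h2]
  · intro u _
    simp only
    exact Nat.mod_add_div' u s
  · rintro ⟨x, y⟩ _
    rfl

/-- The bound for one orbit. -/
theorem orbit_bound {w W s l : ℕ} {a : ℤ} (hw : 0 < w) (hwW : w ! ∣ W) (hl : l.Prime)
    (hs : 0 < s) (hla : ¬ (l : ℤ) ∣ a) (u₀ : ℕ) :
    ‖∑ i ∈ range l, (if (1 + W * (u₀ + i * s)).Coprime (s * l) then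
      ee ((a : ℝ) * ((u₀ + i * s : ℕ) : ℝ) / ((s * l : ℕ) : ℝ)) else 0)‖ ≤
    1 / (w : ℝ) * ∑ i ∈ range l, (if (1 + W * (u₀ + i * s)).Coprime (s * l) then (1 : ℝ) else 0) := by
  have hl0 : (l : ℝ) ≠ 0 := by exact_mod_cast hl.ne_zero
  have hs0 : (s : ℝ) ≠ 0 := by exact_mod_cast hs.ne'
  have hw0 : (0 : ℝ) < w := by exact_mod_cast hw
  have hB : (0 : ℝ) ≤ ∑ i ∈ range l,
      (if (1 + W * (u₀ + i * s)).Coprime (s * l) then (1 : ℝ) else 0) :=
    Finset.sum_nonneg fun i _ => by split_ifs <;> norm_num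
  have he : ∀ i : ℕ, ee ((a : ℝ) * ((u₀ + i * s : ℕ) : ℝ) / ((s * l : ℕ) : ℝ)) =
      ee ((a : ℝ) * u₀ / ((s * l : ℕ) : ℝ)) * ee ((a : ℝ) / l * i) := by
    intro i
    rw [← ee_add]
    congr 1
    push_cast
    field_simp
  have hcs : ∀ i : ℕ, (1 + W * (u₀ + i * s)).Coprime s ↔ (1 + W * u₀).Coprime s := by
    intro i
    have : 1 + W * (u₀ + i * s) = 1 + W * u₀ + (W * i) * s := by ring
    rw [this]
    exact Nat.coprime_add_mul_right_left _ _ _
  have hco : ∀ i : ℕ, (1 + W * (u₀ + i * s)).Coprime (s * l) ↔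
      ((1 + W * u₀).Coprime s ∧ ¬ l ∣ 1 + W * (u₀ + i * s)) := by
    intro i
    rw [Nat.coprime_mul_iff_right, hcs i, Nat.coprime_comm (m := l), hl.coprime_iff_not_dvd]
  by_cases hg : (1 + W * u₀).Coprime s
  swap
  · have h0 : ∀ i : ℕ, ¬ (1 + W * (u₀ + i * s)).Coprime (s * l) := fun i h => hg ((hco i).1 h).1
    rw [Finset.sum_eq_zero fun i _ => if_neg (h0 i), norm_zero]
    exact mul_nonneg (by positivity) hB
  by_cases hWs : l ∣ W * s
  · -- the condition does not depend on `i`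
    have hdl : ∀ i : ℕ, l ∣ 1 + W * (u₀ + i * s) ↔ l ∣ 1 + W * u₀ := by
      intro i
      have : 1 + W * (u₀ + i * s) = 1 + W * u₀ + i * (W * s) := by ring
      rw [this]
      exact (Nat.dvd_add_iff_left (dvd_mul_of_dvd_right hWs i)).symm
    have : ∑ i ∈ range l, (if (1 + W * (u₀ + i * s)).Coprime (s * l) then
        ee ((a : ℝ) * ((u₀ + i * s : ℕ) : ℝ) / ((s * l : ℕ) : ℝ)) else 0) = 0 := by
      by_cases hd : l ∣ 1 + W * u₀
      · refine Finset.sum_eq_zero fun i _ => if_neg ?_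
        rw [hco, hdl]
        tauto
      · have h1 : ∀ i : ℕ, (1 + W * (u₀ + i * s)).Coprime (s * l) := by
          intro i
          rw [hco, hdl]
          exact ⟨hg, hd⟩
        simp_rw [if_pos (h1 _), he]
        rw [← Finset.mul_sum, sum_ee_zero hl hla, mul_zero]
    rw [this, norm_zero]
    exact mul_nonneg (by positivity) hB
  · -- exactly one index is excluded
    have : Fact l.Prime := ⟨hl⟩
    have hlw : w < l := by
      by_contra hcon
      push Not at hcon
      exact hWs (dvd_mul_of_dvd_left ((Nat.dvd_factorial hl.pos hcon).trans hwW) _)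
    have hu : ((W * s : ℕ) : ZMod l) ≠ 0 := by
      intro h
      exact hWs ((ZMod.natCast_eq_zero_iff _ _).1 h)
    set c : ZMod l := -((1 + W * u₀ : ℕ) : ZMod l) / ((W * s : ℕ) : ZMod l) with hc
    have hi0 : ∀ i ∈ range l, (l ∣ 1 + W * (u₀ + i * s) ↔ i = c.val) := by
      intro i hi
      rw [mem_range] at hi
      rw [← ZMod.natCast_eq_zero_iff]
      have e1 : ((1 + W * (u₀ + i * s) : ℕ) : ZMod l) =
          ((1 + W * u₀ : ℕ) : ZMod l) + (i : ZMod l) * ((W * s : ℕ) : ZMod l) := by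
        push_cast; ring
      rw [e1]
      constructor
      · intro h
        have h2 : (i : ZMod l) = c := by
          rw [hc, eq_div_iff hu]
          rw [add_comm] at h
          exact eq_neg_of_add_eq_zero_left h
        rw [← h2, ZMod.val_natCast, Nat.mod_eq_of_lt hi]
      · intro h
        have h2 : (i : ZMod l) = c := by
          rw [h, ZMod.natCast_val, ZMod.cast_id]
        rw [h2, hc, div_mul_cancel₀ _ hu, add_neg_cancel]
    have hcl : c.val ∈ range l := mem_range.2 (ZMod.val_lt c)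
    have hif : ∀ (R : Type) [AddCommGroup R] (f : ℕ → R),
        ∑ i ∈ range l, (if (1 + W * (u₀ + i * s)).Coprime (s * l) then f i else 0) =
        ∑ i ∈ range l, f i - f c.val := by
      intro R _ f
      have h1 : ∀ i ∈ range l, (if (1 + W * (u₀ + i * s)).Coprime (s * l) then f i else 0) =
          f i - (if i = c.val then f i else 0) := by
        intro i hi
        by_cases hic : i = c.val
        · rw [if_neg, if_pos hic, sub_self]
          rw [hco]
          intro h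
          exact h.2 ((hi0 i hi).2 hic)
        · rw [if_pos, if_neg hic, sub_zero]
          rw [hco]
          exact ⟨hg, fun h => hic ((hi0 i hi).1 h)⟩
      rw [Finset.sum_congr rfl h1, Finset.sum_sub_distrib, Finset.sum_ite_eq' (range l) c.val f,
        if_pos hcl]
    have hA := hif ℂ fun i => ee ((a : ℝ) * ((u₀ + i * s : ℕ) : ℝ) / ((s * l : ℕ) : ℝ))
    have hBB := hif ℝ fun _ => (1 : ℝ)
    rw [hA, hBB]
    have hz : ∑ i ∈ range l, ee ((a : ℝ) * ((u₀ + i * s : ℕ) : ℝ) / ((s * l : ℕ) : ℝ)) = 0 := by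
      simp_rw [he]
      rw [← Finset.mul_sum, sum_ee_zero hl hla, mul_zero]
    rw [hz, zero_sub, norm_neg, norm_ee]
    simp only [Finset.sum_const, card_range, nsmul_eq_mul, mul_one]
    have h3 : (w : ℝ) ≤ (l : ℝ) - 1 := by
      have : w + 1 ≤ l := hlw
      have h4 : ((w + 1 : ℕ) : ℝ) ≤ (l : ℝ) := by exact_mod_cast this
      push_cast at h4
      linarith
    rw [one_div, inv_mul_eq_div, le_div_iff₀ hw0, one_mul]
    exact h3

/-- Row VRA. -/
theorem pf_VRA : T_VRA := by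
  intro w W q a hw _ hwW hq hco
  obtain ⟨l, hl, hlq⟩ := Nat.exists_prime_and_dvd (by omega : q ≠ 1)
  obtain ⟨s, rfl⟩ := hlq
  have hs : 0 < s := by
    rcases Nat.eq_zero_or_pos s with h | h
    · subst h; omega
    · exact h
  have hla : ¬ (l : ℤ) ∣ a := by
    intro h
    have h1 : (l : ℤ) ∣ ((l * s : ℕ) : ℤ) := by push_cast; exact dvd_mul_right _ _
    have h2 := hco.isUnit_of_dvd' h h1
    rw [Int.isUnit_iff] at h2
    have := hl.two_le
    omega
  rw [mul_comm l s]
  have e1 : ∑ u ∈ (range (s * l)).filter (fun u => (1 + W * u).Coprime (s * l)),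
      ee ((a : ℝ) * u / ((s * l : ℕ) : ℝ)) =
      ∑ u₀ ∈ range s, ∑ i ∈ range l, (if (1 + W * (u₀ + i * s)).Coprime (s * l) then
      ee ((a : ℝ) * ((u₀ + i * s : ℕ) : ℝ) / ((s * l : ℕ) : ℝ)) else 0) := by
    rw [Finset.sum_filter, sum_range_split s l hs]
  have e2 : (((range (s * l)).filter (fun u => (1 + W * u).Coprime (s * l))).card : ℝ) =
      ∑ u₀ ∈ range s, ∑ i ∈ range l,
        (if (1 + W * (u₀ + i * s)).Coprime (s * l) then (1 : ℝ) else 0) := by
    rw [Finset.card_eq_sum_ones, Finset.sum_filter]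
    push_cast
    rw [sum_range_split s l hs]
  rw [e1, e2, Finset.mul_sum]
  refine (norm_sum_le _ _).trans (Finset.sum_le_sum fun u₀ _ => ?_)
  exact orbit_bound hw hwW hl hs hla u₀

end Pool.Agent.H29.AG
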