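import Pool.Agent.H38.AG.Targets

/-!
# Row EN1: moments of one dyadic box modulo `S`-units
-/

set_option autoImplicit false

open Pool.Agent.H38.RB Pool.Agent.H38.PS Pool.Agent.H82.RD Pool.Agent.H38.AB Pool.Agent.H38.AG

namespace Pool.Agent.H29.AG

/-- at most `n!` sequences of primes have a given product -/
theorem card_prime_tuples (n P : ℕ) (T : Finset (Fin n → ℕ))
    (hT : ∀ t ∈ T, (∀ i, (t i).Prime) ∧ ∏ i, t i = P) : T.card ≤ n.factorial := by
  classical
  rcases T.eq_empty_or_nonempty with h0 | ⟨t0, ht0⟩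
  · simp [h0]
  have key : ∀ t ∈ T, List.Perm (List.ofFn t) P.primeFactorsList := by
    intro t ht
    obtain ⟨hp, hprod⟩ := hT t ht
    refine Nat.primeFactorsList_unique ?_ ?_
    · rw [List.prod_ofFn]; exact hprod
    · intro p hp'
      rw [List.mem_ofFn] at hp'
      obtain ⟨i, rfl⟩ := hp'
      exact hp i
  have hlen : P.primeFactorsList.length = n := by
    rw [← (key t0 ht0).length_eq, List.length_ofFn]
  have hinj : Set.InjOn (fun t : Fin n → ℕ => List.ofFn t) (T : Set (Fin n → ℕ)) := by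
    intro a _ b _ hab
    exact List.ofFn_injective hab
  have h1 : T.card ≤ (P.primeFactorsList.permutations.toFinset).card := by
    refine Finset.card_le_card_of_injOn (fun t => List.ofFn t) ?_ hinj
    intro t ht
    have := key t ht
    simp only [Finset.mem_coe, List.mem_toFinset, List.mem_permutations]
    exact this
  refine h1.trans ((List.toFinset_card_le _).trans ?_)
  rw [List.length_permutations, hlen]

theorem length_prod (n : ℕ) (t : Fin n → ℕ) (ht : ∀ i, (t i).Prime) :
    (∏ i, t i).primeFactorsList.length = n := by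
  have key : List.Perm (List.ofFn t) (∏ i, t i).primeFactorsList := by
    refine Nat.primeFactorsList_unique ?_ ?_
    · rw [List.prod_ofFn]
    · intro p hp'
      rw [List.mem_ofFn] at hp'
      obtain ⟨i, rfl⟩ := hp'
      exact ht i
  rw [← key.length_eq, List.length_ofFn]

theorem card_Dy_le (g s : ℕ) : (Dy g s).card ≤ 2 ^ s := by
  unfold Dy
  refine (Finset.card_filter_le _ _).trans ?_
  rw [Nat.card_Ico, pow_succ]
  omega

theorem pf_EN1 (hBOX : T_BOX) : T_EN1 := by
  classical
  intro q e s n v V _ S τ f hq he hv hτ hS hf hP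
  obtain ⟨-, hinv, hmul, -⟩ := hBOX (q ^ e) V S (fun u hu => (hS u hu).pow_right e)
  obtain ⟨-, hinv2, hmul2, -⟩ := hBOX (q ^ e) (V + V) S (fun u hu => (hS u hu).pow_right e)
  set H := Hb (q ^ e) S V with hH
  set B := Dy q s with hB
  have hBmem : ∀ p ∈ B, p < 2 ^ (s + 1) ∧ p.Prime ∧ p.Coprime q := by
    intro p hp
    rw [hB, Dy, Finset.mem_filter, Finset.mem_Ico] at hp
    exact ⟨hp.1.2, hp.2.1, hp.2.2⟩
  set D := Fintype.piFinset (fun _ : Fin n => B) with hD
  have hDm : ∀ t ∈ D, ∀ i, t i ∈ B := by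
    intro t ht i
    rw [hD, Fintype.mem_piFinset] at ht
    exact ht i
  -- the relation
  let R : (Fin n → ℕ) → (Fin n → ℕ) → Prop := fun t t' =>
    ∃ h ∈ H, ∃ h' ∈ H, (∏ i, f (t i)) * h = (∏ i, f (t' i)) * h'
  have hcount : ∀ t ∈ D, ((D.filter (R t)).card : ℝ) ≤ n.factorial * τ := by
    intro t ht
    set P := (D.filter (R t)).image (fun t' => ∏ i, t' i) with hPdef
    have hPc : (P.card : ℝ) ≤ τ := by
      refine hP P ?_ ?_
      · intro p hp
        rw [hPdef, Finset.mem_image] at hp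
        obtain ⟨t', ht', rfl⟩ := hp
        have htD := (Finset.mem_filter.1 ht').1
        refine ⟨?_, ?_, ?_, ?_⟩
        · exact Finset.prod_pos fun i _ => (hBmem _ (hDm _ htD i)).2.1.pos
        · calc ∏ i, t' i ≤ ∏ _i : Fin n, 2 ^ (s + 1) :=
                Finset.prod_le_prod' fun i _ => (hBmem _ (hDm _ htD i)).1.le
            _ = 2 ^ ((s + 1) * n) := by
                rw [Finset.prod_const, Finset.card_univ, Fintype.card_fin, ← pow_mul]
        · exact Nat.Coprime.prod_left fun i _ => (hBmem _ (hDm _ htD i)).2.2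
        · exact length_prod n t' fun i => (hBmem _ (hDm _ htD i)).2.1
      · intro p hp p' hp'
        rw [hPdef, Finset.mem_image] at hp hp'
        obtain ⟨t1, ht1, rfl⟩ := hp
        obtain ⟨t2, ht2, rfl⟩ := hp'
        obtain ⟨ht1D, h1, hh1, h1', hh1', e1⟩ := Finset.mem_filter.1 ht1
        obtain ⟨ht2D, h2, hh2, h2', hh2', e2⟩ := Finset.mem_filter.1 ht2
        -- the quotient of the two products
        have hz : ((h1 * h1'⁻¹) * (h2' * h2⁻¹)) ∈ Hb (q ^ e) S ((V + V) + (V + V)) :=
          hmul2 _ _ _ (hmul _ _ _ hh1 (hinv _ hh1')) (hmul _ _ _ hh2' (hinv _ hh2))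
        have hq1 : ∏ i, f (t1 i) = ((h1 * h1'⁻¹) * (h2' * h2⁻¹)) * ∏ i, f (t2 i) := by
          have a1 : ∏ i, f (t1 i) = (∏ i, f (t i)) * h1 * h1'⁻¹ := by
            rw [e1, mul_assoc, mul_inv_cancel, mul_one]
          have a2 : (∏ i, f (t i)) = (∏ i, f (t2 i)) * h2' * h2⁻¹ := by
            rw [← e2, mul_assoc, mul_inv_cancel, mul_one]
          rw [a1]
          nth_rewrite 1 [a2]
          simp only [mul_comm, mul_left_comm, mul_assoc]
        unfold Hb at hz
        obtain ⟨-, α, γ, hαγ, heq⟩ := Finset.mem_filter.1 hz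
        have hcast : ∀ t' ∈ D, ((∏ i, f (t' i) : (ZMod (q ^ e))ˣ) : ZMod (q ^ e)) =
            ((∏ i, t' i : ℕ) : ZMod (q ^ e)) ^ v := by
          intro t' ht'
          rw [Units.coe_prod, Nat.cast_prod, ← Finset.prod_pow]
          exact Finset.prod_congr rfl fun i _ => hf _ (hBmem _ (hDm _ ht' i)).2.2
        refine ⟨α, γ, fun l => ⟨(hαγ l).1.trans (by omega), (hαγ l).2.trans (by omega)⟩, ?_⟩
        rw [← ZMod.natCast_eq_natCast_iff]
        push_cast
        have c1 := hcast t1 ht1D
        have c2 := hcast t2 ht2D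
        push_cast at c1 c2
        rw [← c1, ← c2]
        have hq1' := congrArg (fun u : (ZMod (q ^ e))ˣ => (u : ZMod (q ^ e))) hq1
        simp only [Units.val_mul, Units.coe_prod] at hq1'
        rw [hq1']
        rw [Units.val_mul, Units.val_mul] at heq
        have heq' := congrArg (fun z => z * ∏ i, ((f (t2 i) : (ZMod (q ^ e))ˣ) : ZMod (q ^ e))) heq
        rw [mul_right_comm] at heq'
        rw [Units.val_mul] at heq'
        rw [heq', mul_comm]
    have hcard : (D.filter (R t)).card ≤ n.factorial * P.card := by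
      refine Finset.card_le_mul_card_image_of_maps_to (f := fun t' : Fin n → ℕ => ∏ i, t' i)
        ?_ _ ?_
      · intro t' ht'
        exact Finset.mem_image_of_mem _ ht'
      · intro b _
        refine card_prime_tuples n b _ ?_
        intro t' ht'
        obtain ⟨h1, h2⟩ := Finset.mem_filter.1 ht'
        exact ⟨fun i => (hBmem _ (hDm _ (Finset.mem_filter.1 h1).1 i)).2.1, h2⟩
    calc ((D.filter (R t)).card : ℝ) ≤ ((n.factorial * P.card : ℕ) : ℝ) := by exact_mod_cast hcard
      _ = n.factorial * (P.card : ℝ) := by push_cast; ring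
      _ ≤ n.factorial * τ := mul_le_mul_of_nonneg_left hPc (Nat.cast_nonneg _)
  -- the pairs
  set E := (D ×ˢ D).filter (fun t => R t.1 t.2) with hE
  have hEc : (E.card : ℝ) ≤ D.card * (n.factorial * τ) := by
    have h1 : E.card = ∑ t ∈ D, (D.filter (R t)).card := by
      rw [hE, Finset.card_filter, Finset.sum_product]
      refine Finset.sum_congr rfl fun t _ => ?_
      rw [Finset.card_filter]
    rw [h1]
    push_cast
    calc ∑ t ∈ D, ((D.filter (R t)).card : ℝ) ≤ ∑ _t ∈ D, (n.factorial * τ) :=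
          Finset.sum_le_sum hcount
      _ = D.card * (n.factorial * τ) := by rw [Finset.sum_const, nsmul_eq_mul]
  -- the quadruples
  have hEW : EW (fun _ : Fin n => B) (fun _ => f) H ≤ ((E ×ˢ H).card : ℝ) := by
    unfold EW
    have : (((((Fintype.piFinset fun _ : Fin n => B) ×ˢ (Fintype.piFinset fun _ : Fin n => B)) ×ˢ
        (H ×ˢ H)).filter (fun t => (∏ j, f (t.1.1 j)) * t.2.1 = (∏ j, f (t.1.2 j)) * t.2.2)).card)
        ≤ (E ×ˢ H).card := by
      refine Finset.card_le_card_of_injOn (fun t => (t.1, t.2.1)) ?_ ?_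
      · rintro ⟨⟨a, b⟩, ⟨h, h'⟩⟩ ht
        simp only [Finset.coe_filter, Finset.mem_product, Set.mem_ofPred_eq] at ht
        simp only [Finset.coe_product, Set.mem_prod, Finset.mem_coe, hE, Finset.mem_filter,
          Finset.mem_product]
        exact ⟨⟨⟨ht.1.1.1, ht.1.1.2⟩, h, ht.1.2.1, h', ht.1.2.2, ht.2⟩, ht.1.2.1⟩
      · rintro ⟨⟨a, b⟩, ⟨h, h'⟩⟩ ht ⟨⟨a1, b1⟩, ⟨k, k'⟩⟩ ht1 heq
        simp only [Finset.coe_filter, Finset.mem_product, Set.mem_ofPred_eq] at ht ht1
        simp only [Prod.mk.injEq] at heq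
        obtain ⟨⟨rfl, rfl⟩, rfl⟩ := heq
        have := ht.2.symm.trans ht1.2
        have h3 := mul_left_cancel this
        rw [h3]
    exact_mod_cast this
  have hDc : (D.card : ℝ) ≤ ((2 : ℝ) ^ s) ^ n := by
    have h1 : D.card ≤ (2 ^ s) ^ n := by
      rw [hD, Fintype.card_piFinset, Finset.prod_const, Finset.card_univ, Fintype.card_fin]
      exact Nat.pow_le_pow_left (card_Dy_le q s) n
    exact_mod_cast h1
  have hnτ : 0 ≤ (n.factorial : ℝ) * τ := mul_nonneg (Nat.cast_nonneg _) hτ
  calc EW (fun _ : Fin n => B) (fun _ => f) H ≤ ((E ×ˢ H).card : ℝ) := hEW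
    _ = (E.card : ℝ) * H.card := by rw [Finset.card_product]; push_cast; ring
    _ ≤ (D.card * (n.factorial * τ)) * H.card :=
        mul_le_mul_of_nonneg_right hEc (Nat.cast_nonneg _)
    _ ≤ (((2 : ℝ) ^ s) ^ n * (n.factorial * τ)) * H.card :=
        mul_le_mul_of_nonneg_right (mul_le_mul_of_nonneg_right hDc hnτ) (Nat.cast_nonneg _)
    _ = H.card * (((2 : ℝ) ^ s) ^ n * n.factorial * τ) := by ring

end Pool.Agent.H29.AG
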